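import Pool.Agent.H85.TU.Targets2

/-!
# Prefix classes: the class of the blow-ups has as many types as the core class
-/

set_option autoImplicit false

namespace Pool.Agent.H16.TU

open Set Pool.Agent.H85.TU

theorem iso_symm {ι : Type} {ar : ι → ℕ} {D : ι → Type} {V W : Type} {x : Str ar D V}
    {y : Str ar D W} (h : Iso x y) : Iso y x := by
  obtain ⟨g, hg⟩ := h
  refine ⟨g.symm, fun i v => ?_⟩
  have h1 := hg i (g.symm ∘ v)
  have h2 : g ∘ (g.symm ∘ v) = v := by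
    funext j
    simp
  rw [h2] at h1
  exact h1.symm

theorem iso_trans {ι : Type} {ar : ι → ℕ} {D : ι → Type} {V W U : Type} {x : Str ar D V}
    {y : Str ar D W} {z : Str ar D U} (h : Iso x y) (h' : Iso y z) : Iso x z := by
  obtain ⟨g, hg⟩ := h
  obtain ⟨g', hg'⟩ := h'
  refine ⟨g.trans g', fun i v => ?_⟩
  have h1 : (g.trans g') ∘ v = g' ∘ (g ∘ v) := rfl
  rw [h1, hg', hg]

theorem iso_pull {ι : Type} {ar : ι → ℕ} {D : ι → Type} {V W : Type} (y : Str ar D W)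
    (e : V ≃ W) : Iso (pull y e) y := ⟨e, fun _ _ => rfl⟩

theorem pf_BLO (hBL1 : T_BL1) (hBL2 : T_BL2) (hB3D : T_B3D) (hBL4 : T_BL4) (hSIS : T_SIS)
    (hP12 : T_P12) : T_BLO := by
  intro C _ _ α β len hHL
  have hinv : ∀ z ∈ S1 α β len, ∀ z' : Str bar (bD (LC C)) ℕ, Iso z z' → z' ∈ S1 α β len := by
    have h1 := (hP12 C α β len).1
    have h2 := hSIS Unit bar (bD (LC C)) [true, true, true, false] (M1 α β len)
    rw [h1] at h2
    exact h2
  obtain ⟨e⟩ : Nonempty (ℕ ≃ UU) := ⟨(Denumerable.eqv UU).symm⟩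
  refine ⟨⟨?_, ?_⟩, ⟨?_, ?_⟩⟩
  · rintro ⟨S, hS, hc⟩
    refine ⟨dec '' (S ∩ S1 α β len), (hS.mono inter_subset_left).image _, fun y hy => ?_⟩
    have h1 := hBL1 C α β len hHL y hy e
    obtain ⟨s, hs, hi⟩ := hc _ h1
    have h2 : s ∈ S1 α β len := hinv _ h1 s hi
    refine ⟨dec s, ⟨s, ⟨hs, h2⟩, rfl⟩, ?_⟩
    rw [hBL2 C y (dec s)]
    exact iso_trans (iso_symm (iso_pull (blow y) e)) (iso_trans hi (hB3D C α β len s h2).2)
  · rintro ⟨S, hS, hc⟩
    refine ⟨(fun y => pull (blow y) e) '' S, hS.image _, fun z hz => ?_⟩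
    obtain ⟨h1, h2⟩ := hB3D C α β len z hz
    obtain ⟨s, hs, hi⟩ := hc _ h1
    refine ⟨pull (blow s) e, ⟨s, hs, rfl⟩, ?_⟩
    exact iso_trans h2 (iso_trans ((hBL2 C _ _).1 hi) (iso_symm (iso_pull (blow s) e)))
  · rintro ⟨F, hF, hm, hn⟩
    refine ⟨fun u => dec (F u), (hBL4 C).1.comp hF,
      fun u => (hB3D C α β len (F u) (hm u)).1, fun u v huv hi => hn u v huv ?_⟩
    exact iso_trans (hB3D C α β len (F u) (hm u)).2
      (iso_trans ((hBL2 C _ _).1 hi) (iso_symm (hB3D C α β len (F v) (hm v)).2))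
  · rintro ⟨F, hF, hm, hn⟩
    refine ⟨fun u => pull (blow (F u)) e, ((hBL4 C).2 e).comp hF,
      fun u => hBL1 C α β len hHL (F u) (hm u) e, fun u v huv hi => hn u v huv ?_⟩
    rw [hBL2 C (F u) (F v)]
    exact iso_trans (iso_symm (iso_pull (blow (F u)) e))
      (iso_trans hi (iso_pull (blow (F v)) e))

end Pool.Agent.H16.TU
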