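import Pool.Agent.H85.TU.Targets2

/-!
# Prefix classes: the prefixes outside the four families
-/

set_option autoImplicit false

namespace Pool.Agent.H16.TU

open Set Pool.Agent.H85.TU

theorem word_split (b : Bool) (π : List Bool) :
    ∃ m, π = List.replicate m b ∨ ∃ s, π = List.replicate m b ++ (!b) :: s := by
  induction π with
  | nil => exact ⟨0, Or.inl rfl⟩
  | cons a π ih =>
    obtain ⟨m, hm⟩ := ih
    by_cases hab : a = b
    · subst hab
      refine ⟨m + 1, ?_⟩
      rcases hm with hm | ⟨s, hs⟩
      · left
        rw [hm]
        rfl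
      · right
        exact ⟨s, by rw [hs]; rfl⟩
    · refine ⟨0, Or.inr ⟨π, ?_⟩⟩
      have h1 : a = !b := by
        cases a <;> cases b <;> simp_all
      rw [h1]
      rfl

theorem word_skip (m : ℕ) {l s : List Bool} (h : l.Sublist s) :
    l.Sublist (List.replicate m false ++ s) :=
  h.trans (List.sublist_append_right _ _)

theorem pf_WRD : T_WRD := by
  intro π h1 h2 h3 h4
  obtain ⟨m, hm | ⟨s, hs⟩⟩ := word_split false π
  · exact (h1 ⟨m, 0, by simpa using hm⟩).elim
  rw [Bool.not_false] at hs
  obtain ⟨p, hp | ⟨t, ht⟩⟩ := word_split false s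
  · exact (h2 ⟨m, 1, p, by norm_num, by rw [hs, hp]; simp⟩).elim
  rw [Bool.not_false] at ht
  obtain ⟨q, hq | ⟨r, hr⟩⟩ := word_split false t
  · right
    right
    have hp0 : p ≠ 0 := by
      rintro rfl
      exact h2 ⟨m, 2, q, le_refl _, by rw [hs, ht, hq]; simp [List.replicate_succ]⟩
    have hq0 : q ≠ 0 := by
      rintro rfl
      exact h3 ⟨m, p, 1, by rw [hs, ht, hq]; simp⟩
    have hp1 : p ≠ 1 := by
      rintro rfl
      exact h4 ⟨m, q, by rw [hs, ht, hq]; simp⟩
    have ha : [false, false].Sublist (List.replicate p false) :=
      (List.replicate_sublist_replicate (m := 2) (n := p) false).2 (by omega)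
    have hb : [false].Sublist (List.replicate q false) :=
      (List.replicate_sublist_replicate (m := 1) (n := q) false).2 (by omega)
    rw [hs, ht, hq]
    exact word_skip m ((ha.append (hb.cons_cons true)).cons_cons true)
  · rw [Bool.not_false] at hr
    by_cases hq0 : q = 0
    · subst hq0
      obtain ⟨k, hk | ⟨r', hr'⟩⟩ := word_split true r
      · exact (h3 ⟨m, p, k + 2, by rw [hs, ht, hr, hk]; simp [List.replicate_succ]⟩).elim
      · left
        rw [Bool.not_true] at hr'
        have ha : [false].Sublist r := by
          rw [hr']
          exact ((List.nil_sublist r').cons_cons false).trans (List.sublist_append_right _ _)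
        rw [hs, ht, hr]
        exact word_skip m ((word_skip p ((word_skip 0 (ha.cons_cons true)).cons_cons true)).cons_cons true)
    · right
      left
      have hb : [false].Sublist (List.replicate q false) :=
        (List.replicate_sublist_replicate (m := 1) (n := q) false).2 (by omega)
      rw [hs, ht, hr]
      exact word_skip m ((word_skip p ((hb.append
        ((List.nil_sublist r).cons_cons true)).cons_cons true)).cons_cons true)

end Pool.Agent.H16.TU
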